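import Pool.Agent.Q290.DZ.Fam

/-!
# Deligne's conjecture for the twists of an abelian variety: one twist decides

`A/ℚ` is an abelian variety of dimension `d`, `M/ℚ` a finite totally real Galois extension with
group `G`.  The structure `TwistFamily` collects the known theorem of Shimura on the values of the
twists over those fields `M^H` whose group `H = Gal(M/M^H)` is hyperelementary, in the case where
`A` is modular (of `GL₂`-type) over these fields.  The theorem is about any such data.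
-/

set_option autoImplicit false

namespace Pool.Agent.Results.MP_21281f_nt.OneTwistDecides

open Pool.Agent.Q246.BI Pool.Agent.Q290.DZ

/-- the values of a linear character of `H` as complex numbers -/
def lin {G : Type} [Group G] {H : Subgroup G} (ψ : H →* ℂˣ) : H → ℂ := fun h => ((ψ h : ℂˣ) : ℂ)

/-- Known facts on the values at `s = 1` of the `L(A ⊗ χη, s)`, `χ` a character of `G` and `η` an
even Dirichlet character such that `L(A/M ⊗ η, 1) ≠ 0`. -/
structure TwistFamily (G : Type) [Group G] [Finite G] where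
  /-- the even Dirichlet characters `η` with `L(A/M ⊗ η, 1) ≠ 0` -/
  T : Type
  /-- the action of the automorphisms of `ℂ` on them, `η ↦ σ ∘ η` -/
  act : (ℂ ≃+* ℂ) → T → T
  /-- `(value η).val χ` is `L(A ⊗ χη, 1)` for every character `χ` of `G`: nonzero, and
  multiplicative in `χ` -/
  value : T → Mult G
  /-- `(gauss η).val χ` is the `d`-th power of the Galois Gauss sum of `χη` -/
  gauss : T → Mult G
  /-- the period of `A` over `M^H` -/
  period : Subgroup G → ℂ
  period_ne : ∀ H : Subgroup G, Hyp H → period H ≠ 0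
  /-- the theorem of Shimura over `M^H`, for hyperelementary `H`: for all linear characters `ψ` of
  `H` and all `η`, the value is equivariant with one and the same period -/
  shimura : ∀ H : Subgroup G, Hyp H → ∀ (ψ : H →* ℂˣ) (η : T) (σ : ℂ ≃+* ℂ),
    σ ((value η).val (Ind H (lin ψ)) / ((gauss η).val (Ind H (lin ψ)) * period H)) =
      (value (act σ η)).val (conj σ (Ind H (lin ψ))) /
        ((gauss (act σ η)).val (conj σ (Ind H (lin ψ))) * period H)

/-- **Theorem.** Let `Ω ≠ 0` be such that the equivariance (ii) of Q1 holds for ONE character `η₀`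
and all automorphisms (`1` denotes the trivial character of `G`).  Then
(1) for ALL `η` and ALL characters `χ` of `G`, of degree `n`, the values `L(A ⊗ χη, 1)` are
equivariant with the period `Ω ^ n` (for `χ = 1` this is (ii) of Q1 for `η`, for `χ = Ind_H 1`
it is Deligne's conjecture for `A ⊗ η` over `M^H`);
(2) for all `η`, the number of Q1 lies in every field of which the automorphisms fix `η`, so in
`ℚ(η)`: this is (i) of Q1;
(3) the period of `A` over `M^H`, `H` hyperelementary, is a rational multiple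
of `Ω ^ [M^H : ℚ]`. -/
theorem result (G : Type) [Group G] [Finite G] (D : TwistFamily G) (η₀ : D.T) (Ω : ℂ)
    (hΩ : Ω ≠ 0)
    (h₀ : ∀ σ : ℂ ≃+* ℂ, σ ((D.value η₀).val (fun _ => 1) / ((D.gauss η₀).val (fun _ => 1) * Ω)) =
      (D.value (D.act σ η₀)).val (fun _ => 1) / ((D.gauss (D.act σ η₀)).val (fun _ => 1) * Ω)) :
    (∀ (η : D.T) (χ : G → ℂ) (n : ℕ), IsCh χ → χ 1 = n → ∀ σ : ℂ ≃+* ℂ,
      σ ((D.value η).val χ / ((D.gauss η).val χ * Ω ^ n)) =
        (D.value (D.act σ η)).val (conj σ χ) / ((D.gauss (D.act σ η)).val (conj σ χ) * Ω ^ n)) ∧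
    (∀ (η : D.T) (F : Subfield ℂ), (∀ σ : ℂ ≃+* ℂ, (∀ x ∈ F, σ x = x) → D.act σ η = η) →
      (D.value η).val (fun _ => 1) / ((D.gauss η).val (fun _ => 1) * Ω) ∈ F) ∧
    ∀ H : Subgroup G, Hyp H → ∃ q : ℚ, q ≠ 0 ∧ D.period H = q * Ω ^ H.index := by
  have hσΩ : ∀ σ : ℂ ≃+* ℂ, σ Ω ≠ 0 := fun σ => by rwa [ne_eq, map_eq_zero]
  let R : (ℂ ≃+* ℂ) → D.T → Mult G := fun σ η =>
    (D.value η).ratio (D.gauss η) σ (D.value (D.act σ η)) (D.gauss (D.act σ η))
  have key : ∀ (σ : ℂ ≃+* ℂ) (η : D.T) (χ : G → ℂ) (c : ℂ), IsCh χ → c ≠ 0 →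
      (σ ((D.value η).val χ / ((D.gauss η).val χ * c)) =
        (D.value (D.act σ η)).val (conj σ χ) / ((D.gauss (D.act σ η)).val (conj σ χ) * c) ↔
      (R σ η).val χ = c / σ c) := by
    intro σ η χ c hχ hc
    rw [show (R σ η).val χ = _ from Mult.ratio_val _ _ _ _ _ _, map_div₀, map_div₀, map_mul]
    have h1 : σ c ≠ 0 := by rwa [ne_eq, map_eq_zero]
    have h2 : σ ((D.value η).val χ) ≠ 0 := by
      rw [ne_eq, map_eq_zero]
      exact (D.value η).ne _ hχ
    have h3 : σ ((D.gauss η).val χ) ≠ 0 := by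
      rw [ne_eq, map_eq_zero]
      exact (D.gauss η).ne _ hχ
    have h4 := (D.value (D.act σ η)).ne _ (isCh_conj σ hχ)
    have h5 := (D.gauss (D.act σ η)).ne _ (isCh_conj σ hχ)
    rw [div_eq_div_iff (mul_ne_zero h3 h1) (mul_ne_zero h5 hc),
      div_eq_div_iff (div_ne_zero h2 h3) h1]
    constructor
    · intro h
      field_simp
      linear_combination (-1 : ℂ) * h
    · intro h
      field_simp at h
      linear_combination (-1 : ℂ) * h
  have h1 : ∀ (σ : ℂ ≃+* ℂ) (η : D.T) (H : Subgroup G), Hyp H → ∀ ψ : H →* ℂˣ,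
      (R σ η).val (Ind H (fun h => ((ψ h : ℂˣ) : ℂ))) = D.period H / σ (D.period H) :=
    fun σ η H hH ψ => (key σ η _ _ (isCh_ind H ψ) (D.period_ne H hH)).1 (D.shimura H hH ψ η σ)
  have h2 : ∀ σ : ℂ ≃+* ℂ, (R σ η₀).val (fun _ => 1) = Ω / σ Ω := by
    intro σ
    refine (key σ η₀ _ _ isCh_one hΩ).1 ?_
    rw [h₀ σ, conj_const]
  have h3 : ∀ (σ : ℂ ≃+* ℂ) (η : D.T) (χ : G → ℂ) (n : ℕ), IsCh χ → χ 1 = n →
      (R σ η).val χ = Ω ^ n / σ (Ω ^ n) := by
    intro σ η χ n hχ hn
    rw [(R σ η).same (R σ η₀) _ (h1 σ η) (h1 σ η₀) hχ hn, h2 σ, div_pow, map_pow]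
  have hA : ∀ (η : D.T) (χ : G → ℂ) (n : ℕ), IsCh χ → χ 1 = n → ∀ σ : ℂ ≃+* ℂ,
      σ ((D.value η).val χ / ((D.gauss η).val χ * Ω ^ n)) =
        (D.value (D.act σ η)).val (conj σ χ) / ((D.gauss (D.act σ η)).val (conj σ χ) * Ω ^ n) :=
    fun η χ n hχ hn σ => (key σ η χ _ hχ (pow_ne_zero n hΩ)).2 (h3 σ η χ n hχ hn)
  refine ⟨hA, fun η F hF => ?_, fun H hH => ?_⟩
  · by_contra hcon
    obtain ⟨σ, hσ1, hσ2⟩ := Pool.Agent.TH119.MX.exists_move hcon
    apply hσ2
    have h4 := hA η (fun _ => 1) 1 isCh_one (by norm_num) σ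
    rw [pow_one, hF σ hσ1, conj_const] at h4
    exact h4
  · have hpow : Ω ^ H.index ≠ 0 := pow_ne_zero _ hΩ
    obtain ⟨q, hq⟩ := rational_of_fixed (z := D.period H / Ω ^ H.index) (fun σ => by
      have h4 := h3 σ η₀ _ H.index (isCh_ind H 1) (ind_one_deg H 1)
      rw [h1 σ η₀ H hH 1] at h4
      rw [map_div₀]
      have h5 : σ (D.period H) ≠ 0 := by
        rw [ne_eq, map_eq_zero]
        exact D.period_ne H hH
      have h6 : σ (Ω ^ H.index) ≠ 0 := by rwa [ne_eq, map_eq_zero]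
      rw [div_eq_div_iff h5 h6] at h4
      rw [div_eq_div_iff h6 hpow]
      linear_combination (-1 : ℂ) * h4)
    refine ⟨q, ?_, ?_⟩
    · rintro rfl
      rw [Rat.cast_zero, div_eq_zero_iff] at hq
      exact hq.elim (D.period_ne H hH) hpow
    · rw [← hq, div_mul_cancel₀ _ hpow]

end Pool.Agent.Results.MP_21281f_nt.OneTwistDecides
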